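import Pool.Agent.Helper11.Gap.MainTwo
import Pool.Agent.Helper46.RO.Sim

/-!
# Growth from an action of the derived subgroup by similarities
-/

set_option autoImplicit false

namespace Pool.Agent.Helper90.RO

open Pointwise
open scoped commutatorElement
open Pool.Agent.Helper11.Gap (Sym IsX pth ins seg ex wt sgn flip' Big)
open Pool.Agent.Helper46.RO

section pingpong

variable {G : Type*} [Group G] {E : Type*} {Γ₀ : Type*} [LinearOrderedCommGroupWithZero Γ₀]
variable {N : Subgroup G} (R : SimRep N E Γ₀)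

theorem dist_other {o o' z : E} (hz : R.dist z o < R.dist o o') : R.dist z o' = R.dist o o' :=
  dist_eq_of_lt R hz

theorem dist_act_fix {a : G} (ha : a ∈ N) {o : E} (ho : R.act a o = o) (z : E) :
    R.dist (R.act a z) o = R.μ a * R.dist z o := by
  have h := R.dist_act a ha z o
  rw [ho] at h
  exact h

theorem pair_ball {o o' : E} (hoo : o ≠ o') {a b : G} (ha : a ∈ N) (hb : b ∈ N)
    (hao : R.act a o = o) (hav : R.μ a < 1) (hbo : R.act b o' = o') (hbv : R.μ b < 1) {z : E}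
    (hz : R.dist z o < R.dist o o') :
    R.dist (R.act b z) o' = R.μ b * R.dist o o' ∧
    R.dist (R.act (a * b) z) o = R.μ a * R.dist o o' ∧
      R.dist (R.act (a * b) z) o < R.dist o o' := by
  have hr : R.dist o o' ≠ 0 := R.dist_ne_zero hoo
  have h1 : R.dist (R.act b z) o' = R.μ b * R.dist o o' := by
    rw [dist_act_fix R hb hbo, dist_other R hz]
  have h2 : R.dist (R.act b z) o' < R.dist o' o := by
    rw [h1, R.dist_comm o' o]
    exact mul_lt_self' hbv hr
  have h3 : R.dist (R.act b z) o = R.dist o o' := by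
    rw [dist_other R h2, R.dist_comm]
  have h4 : R.dist (R.act (a * b) z) o = R.μ a * R.dist o o' := by
    rw [R.act_mul ha hb, dist_act_fix R ha hao, h3]
  exact ⟨h1, h4, h4 ▸ mul_lt_self' hav hr⟩

theorem caseTwo {ι A B : Type*} (I : Set ι) (R : ι → SimRep N E Γ₀) (o o' : ι → E)
    (hoo : ∀ i ∈ I, o i ≠ o' i) (U : A → G) (U' : B → G) (hU : ∀ a, U a ∈ N) (hU' : ∀ b, U' b ∈ N)
    (F : Set A) (F' : Set B)
    (h1 : ∀ i ∈ I, ∀ a ∈ F, (R i).act (U a) (o i) = o i ∧ (R i).μ (U a) < 1)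
    (h2 : ∀ i ∈ I, ∀ b ∈ F', (R i).act (U' b) (o' i) = o' i ∧ (R i).μ (U' b) < 1)
    (h3 : ∀ a ∈ F, ∀ a' ∈ F, a ≠ a' → ∃ i ∈ I, (R i).μ (U a) ≠ (R i).μ (U a'))
    (h4 : ∀ b ∈ F', ∀ b' ∈ F', b ≠ b' → ∃ i ∈ I, (R i).μ (U' b) ≠ (R i).μ (U' b'))
    (L L' : List (A × B)) (hL : ∀ p ∈ L, p.1 ∈ F ∧ p.2 ∈ F') (hL' : ∀ p ∈ L', p.1 ∈ F ∧ p.2 ∈ F')
    (hlen : L.length = L'.length)
    (heq : (L.map (fun p => U p.1 * U' p.2)).prod = (L'.map (fun p => U p.1 * U' p.2)).prod) :
    L = L' := by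
  have hprodN : ∀ L : List (A × B), (L.map (fun p => U p.1 * U' p.2)).prod ∈ N := by
    intro L
    apply Subgroup.list_prod_mem
    intro x hx
    rw [List.mem_map] at hx
    obtain ⟨p, _, rfl⟩ := hx
    exact N.mul_mem (hU _) (hU' _)
  have hball : ∀ i ∈ I, ∀ L : List (A × B), (∀ p ∈ L, p.1 ∈ F ∧ p.2 ∈ F') →
      (R i).dist ((R i).act (L.map (fun p => U p.1 * U' p.2)).prod (o i)) (o i) <
        (R i).dist (o i) (o' i) := by
    intro i hi L
    induction L with
    | nil =>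
      intro _
      simp only [List.map_nil, List.prod_nil, (R i).act_one, (R i).dist_self]
      exact zero_lt_iff.2 ((R i).dist_ne_zero (hoo i hi))
    | cons p L ih =>
      intro hp
      have hpm := hp p (by simp)
      have ih' := ih (fun q hq => hp q (by simp [hq]))
      rw [List.map_cons, List.prod_cons, (R i).act_mul (N.mul_mem (hU _) (hU' _)) (hprodN L)]
      exact (pair_ball (R i) (hoo i hi) (hU p.1) (hU' p.2) (h1 i hi _ hpm.1).1
        (h1 i hi _ hpm.1).2 (h2 i hi _ hpm.2).1 (h2 i hi _ hpm.2).2 ih').2.2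
  induction L generalizing L' with
  | nil =>
    cases L' with
    | nil => rfl
    | cons b L' => simp at hlen
  | cons p L ih =>
    cases L' with
    | nil => simp at hlen
    | cons q L' =>
      have hp := hL p (by simp)
      have hq := hL' q (by simp)
      have hLt : ∀ p ∈ L, p.1 ∈ F ∧ p.2 ∈ F' := fun r hr => hL r (by simp [hr])
      have hLt' : ∀ p ∈ L', p.1 ∈ F ∧ p.2 ∈ F' := fun r hr => hL' r (by simp [hr])
      rw [List.map_cons, List.map_cons, List.prod_cons, List.prod_cons] at heq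
      set g := (L.map (fun p => U p.1 * U' p.2)).prod with hg
      set g' := (L'.map (fun p => U p.1 * U' p.2)).prod with hg'
      have hgN : g ∈ N := hprodN L
      have hgN' : g' ∈ N := hprodN L'
      have e1 : p.1 = q.1 := by
        by_contra hne
        obtain ⟨i, hi, hv⟩ := h3 _ hp.1 _ hq.1 hne
        have b1 := (pair_ball (R i) (hoo i hi) (hU p.1) (hU' p.2) (h1 i hi _ hp.1).1
          (h1 i hi _ hp.1).2 (h2 i hi _ hp.2).1 (h2 i hi _ hp.2).2 (hball i hi L hLt)).2.1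
        have b2 := (pair_ball (R i) (hoo i hi) (hU q.1) (hU' q.2) (h1 i hi _ hq.1).1
          (h1 i hi _ hq.1).2 (h2 i hi _ hq.2).1 (h2 i hi _ hq.2).2 (hball i hi L' hLt')).2.1
        rw [← (R i).act_mul (N.mul_mem (hU _) (hU' _)) hgN] at b1
        rw [← (R i).act_mul (N.mul_mem (hU _) (hU' _)) hgN', ← heq, b1] at b2
        have hr : (R i).dist (o i) (o' i) ≠ 0 := (R i).dist_ne_zero (hoo i hi)
        exact hv (mul_right_cancel₀ hr b2)
      have heq2 : U' p.2 * g = U' q.2 * g' := by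
        rw [e1, mul_assoc, mul_assoc] at heq
        exact mul_left_cancel heq
      have e2 : p.2 = q.2 := by
        by_contra hne
        obtain ⟨i, hi, hv⟩ := h4 _ hp.2 _ hq.2 hne
        have b1 := (pair_ball (R i) (hoo i hi) (hU p.1) (hU' p.2) (h1 i hi _ hp.1).1
          (h1 i hi _ hp.1).2 (h2 i hi _ hp.2).1 (h2 i hi _ hp.2).2 (hball i hi L hLt)).1
        have b2 := (pair_ball (R i) (hoo i hi) (hU q.1) (hU' q.2) (h1 i hi _ hq.1).1
          (h1 i hi _ hq.1).2 (h2 i hi _ hq.2).1 (h2 i hi _ hq.2).2 (hball i hi L' hLt')).1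
        rw [← (R i).act_mul (hU' _) hgN] at b1
        rw [← (R i).act_mul (hU' _) hgN', ← heq2, b1] at b2
        have hr : (R i).dist (o i) (o' i) ≠ 0 := (R i).dist_ne_zero (hoo i hi)
        exact hv (mul_right_cancel₀ hr b2)
      have heq3 : g = g' := by
        rw [e2] at heq2
        exact mul_left_cancel heq2
      rw [Prod.ext e1 e2, ih L' hLt hLt' (by simpa using hlen) heq3]

end pingpong

section words

variable {G : Type*} [Group G] {E : Type*} {Γ₀ : Type*} [LinearOrderedCommGroupWithZero Γ₀]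
variable {N : Subgroup G}

theorem μ_pow (R : SimRep N E Γ₀) {a : G} (ha : a ∈ N) (k : ℕ) : R.μ (a ^ k) = R.μ a ^ k := by
  induction k with
  | zero => rw [pow_zero, pow_zero, R.μ_one]
  | succ k ih => rw [pow_succ, pow_succ, R.μ_mul _ (N.pow_mem ha k) _ ha, ih]

theorem μ_zpow (R : SimRep N E Γ₀) {a : G} (ha : a ∈ N) (k : ℤ) : R.μ (a ^ k) = R.μ a ^ k := by
  rcases Int.natAbs_eq k with h | h
  · rw [h, zpow_natCast, zpow_natCast, μ_pow R ha]
  · rw [h, zpow_neg, zpow_neg, zpow_natCast, zpow_natCast, R.μ_inv (N.pow_mem ha _), μ_pow R ha]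

theorem fix_pow (R : SimRep N E Γ₀) {a : G} (ha : a ∈ N) {z : E} (h : R.act a z = z) (k : ℕ) :
    R.act (a ^ k) z = z := by
  induction k with
  | zero => rw [pow_zero, R.act_one]
  | succ k ih => rw [pow_succ]; exact R.fix_mul (N.pow_mem ha k) ha ih h

theorem fix_zpow (R : SimRep N E Γ₀) {a : G} (ha : a ∈ N) {z : E} (h : R.act a z = z) (k : ℤ) :
    R.act (a ^ k) z = z := by
  rcases Int.natAbs_eq k with h1 | h1
  · rw [h1, zpow_natCast]; exact fix_pow R ha h _
  · rw [h1, zpow_neg, zpow_natCast]; exact R.fix_inv (N.pow_mem ha _) (fix_pow R ha h _)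

/-- Moving the place by an element of `N` fixing `o`. -/
theorem at'_mul_fix_iff (R : SimRep N E Γ₀) [hN : N.Normal] {u n z : G} (hn : n ∈ N) (hz : z ∈ N)
    {o : E} (ho : R.act n o = o) : (R.at' (u * n)).act z o = o ↔ (R.at' u).act z o = o := by
  have hzu : u⁻¹ * z * u ∈ N := by
    have := hN.conj_mem z hz u⁻¹
    rwa [inv_inv] at this
  have e : (R.at' (u * n)).act z o = R.act n⁻¹ (R.act (u⁻¹ * z * u) (R.act n o)) := by
    rw [← R.act_mul hzu hn, ← R.act_mul (N.inv_mem hn) (N.mul_mem hzu hn), SimRep.at'_act]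
    congr 1
    group
  rw [e, ho, SimRep.at'_act]
  constructor
  · intro h
    have h1 := congrArg (R.act n) h
    rw [R.act_act_inv hn, ho] at h1
    exact h1
  · intro h
    rw [h]
    exact R.fix_inv hn ho

theorem fix_seg (R : SimRep N E Γ₀) {Y : ℕ → G}
    (hY : ∀ t, Y t ∈ N) (J : Finset ℕ) (a n : ℕ) (o : E)
    (h : ∀ t, a ≤ t → t < a + n → R.act (Y t) o = o) :
    R.act (seg Y J a n) o = o := by
  induction n with
  | zero => simp [seg, R.act_one]
  | succ n ih =>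
    have ih' := ih (fun t h1 h2 => h t h1 (by omega))
    rw [Pool.Agent.Helper11.Gap.seg_succ]
    have hs := Pool.Agent.Helper11.Gap.seg_mem hY J a n
    split_ifs with hJ
    · rw [R.act_mul (hY _) hs, ih']
      exact h _ (Nat.le_add_right _ _) (by omega)
    · rw [one_mul, ih']

open Classical in
theorem seg_dec (R : SimRep N E Γ₀) {Y : ℕ → G} (hY : ∀ t, Y t ∈ N) (J : Finset ℕ) (i D : ℕ)
    (hi : i < D) (o : E) (hb : ∀ t < i, R.act (Y t) o = o) :
    R.act (seg Y J 0 D) o =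
      R.act (seg Y J (i + 1) (D - (i + 1))) (if i ∈ J then R.act (Y i) o else o) := by
  have hDe : D = (i + 1) + (D - (i + 1)) := by omega
  have hpre : R.act (seg Y J 0 i) o = o := fix_seg R hY J 0 i o (fun t _ h2 => hb t (by omega))
  have h1 : seg Y J 0 D = seg Y J (i + 1) (D - (i + 1)) * seg Y J 0 (i + 1) := by
    conv_lhs => rw [hDe]
    rw [Pool.Agent.Helper11.Gap.seg_add, zero_add]
  rw [h1, R.act_mul (Pool.Agent.Helper11.Gap.seg_mem hY J _ _)
    (Pool.Agent.Helper11.Gap.seg_mem hY J _ _), Pool.Agent.Helper11.Gap.seg_succ, zero_add]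
  congr 1
  split_ifs with hiJ
  · rw [R.act_mul (hY i) (Pool.Agent.Helper11.Gap.seg_mem hY J _ _), hpre]
  · rw [one_mul, hpre]

/-- The digits of `b` can be chosen (from the last one down) such that `b` moves `o` at every
place. -/
theorem exists_digits (D : ℕ) (R : ℕ → SimRep N E Γ₀) (o : E) {Y : ℕ → G} (hY : ∀ t, Y t ∈ N)
    (hb : ∀ i < D, ∀ t < i, (R i).act (Y t) o = o) (hc : ∀ i < D, (R i).act (Y i) o ≠ o) :
    ∃ J : Finset ℕ, ∀ i < D, (R i).act (seg Y J 0 D) o ≠ o := by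
  classical
  have key : ∀ k ≤ D, ∃ J : Finset ℕ, ∀ i, D - k ≤ i → i < D →
      (R i).act (seg Y J 0 D) o ≠ o := by
    intro k
    induction k with
    | zero => intro _; exact ⟨∅, fun i h1 h2 => by omega⟩
    | succ k ih =>
      intro hk
      obtain ⟨J, hJ⟩ := ih (by omega)
      obtain ⟨i, hi⟩ : ∃ i, i = D - (k + 1) := ⟨_, rfl⟩
      have hiD : i < D := by omega
      -- changing the digit `i` does not change the later places
      have hlater : ∀ J' : Finset ℕ, (∀ t, i + 1 ≤ t → (t ∈ J ↔ t ∈ J')) →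
          ∀ j, i + 1 ≤ j → j < D → (R j).act (seg Y J' 0 D) o ≠ o := by
        intro J' hJJ j hj hjD
        rw [seg_dec (R j) hY J' j D hjD o (hb j hjD)]
        have h1 := hJ j (by omega) hjD
        rw [seg_dec (R j) hY J j D hjD o (hb j hjD)] at h1
        rw [← Pool.Agent.Helper11.Gap.seg_congr Y (J := J) (J' := J') (j + 1) (D - (j + 1))
          (fun t ht => hJJ t (by omega))]
        have h2 := hJJ j hj
        by_cases h3 : j ∈ J
        · rw [if_pos (h2.1 h3)]; rwa [if_pos h3] at h1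
        · rw [if_neg (fun h4 => h3 (h2.2 h4))]; rwa [if_neg h3] at h1
      have hin : ∀ t, i + 1 ≤ t → (t ∈ J ↔ t ∈ insert i J) := by
        intro t ht
        rw [Finset.mem_insert]
        constructor
        · exact Or.inr
        · rintro (rfl | h)
          · omega
          · exact h
      have her : ∀ t, i + 1 ≤ t → (t ∈ J ↔ t ∈ J.erase i) := by
        intro t ht
        rw [Finset.mem_erase]
        constructor
        · intro h; exact ⟨by omega, h⟩
        · exact And.right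
      by_cases h1 : (R i).act (seg Y (insert i J) 0 D) o = o
      · refine ⟨J.erase i, fun j hj hjD => ?_⟩
        rcases Nat.eq_or_lt_of_le (show i ≤ j by omega) with rfl | hlt
        · rw [seg_dec (R i) hY _ i D hiD o (hb i hiD), if_pos (Finset.mem_insert_self i J)] at h1
          rw [seg_dec (R i) hY _ i D hiD o (hb i hiD), if_neg (Finset.notMem_erase i J)]
          rw [← Pool.Agent.Helper11.Gap.seg_congr Y (J := J) (J' := insert i J) (i + 1)
            (D - (i + 1)) hin] at h1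
          rw [← Pool.Agent.Helper11.Gap.seg_congr Y (J := J) (J' := J.erase i) (i + 1)
            (D - (i + 1)) her]
          intro h2
          have h3 := (R i).act_injective (Pool.Agent.Helper11.Gap.seg_mem hY J _ _)
            (h1.trans h2.symm)
          exact hc i hiD h3
        · exact hlater _ her j hlt hjD
      · refine ⟨insert i J, fun j hj hjD => ?_⟩
        rcases Nat.eq_or_lt_of_le (show i ≤ j by omega) with rfl | hlt
        · exact h1
        · exact hlater _ hin j hlt hjD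
  obtain ⟨J, hJ⟩ := key D le_rfl
  exact ⟨J, fun i hi => hJ i (by omega) hi⟩

end words

section dist

variable {G : Type*} [Group G] {E : Type*} {Γ₀ : Type*} [LinearOrderedCommGroupWithZero Γ₀]

/-- `x` is hyperbolic at `h`. -/
def Hyp (R : SimRep (commutator G) E Γ₀) (h x : G) : Prop := (R.at' h).μ x ≠ 1

/-- Within distance `< d` of a hyperbolic position all commutators of letters fix its center. -/
def FixProp [DecidableEq G] (T : Finset G) (R : SimRep (commutator G) E Γ₀) (d : ℕ) : Prop :=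
  ∀ h x y g : G, ∀ m : ℕ, IsX T x → IsX T y → Hyp R h x → g ∈ T ^ m → m < d →
    (R.at' (g * h)).act y ((R.at' h).ctr x) = (R.at' h).ctr x

theorem exists_min [DecidableEq G] (T : Finset G) (hT : Sym T)
    (hgen : Subgroup.closure (T : Set G) = ⊤) (R : SimRep (commutator G) E Γ₀)
    (H1 : ∃ n ∈ commutator G, R.μ n ≠ 1)
    (H2 : ∀ z : E, ∃ n ∈ commutator G, R.act n z ≠ z) :
    ∃ d : ℕ, FixProp T R d ∧ ∃ h x y g : G, IsX T x ∧ IsX T y ∧ Hyp R h x ∧ g ∈ T ^ d ∧
      (R.at' (g * h)).act y ((R.at' h).ctr x) ≠ (R.at' h).ctr x := by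
  classical
  -- a hyperbolic position
  have hhyp : ∃ h x, IsX T x ∧ Hyp R h x := by
    by_contra hcon
    push Not at hcon
    obtain ⟨n, hn, hvn⟩ := H1
    let P : Subgroup G :=
      { carrier := {n | n ∈ commutator G ∧ R.μ n = 1}
        one_mem' := ⟨Subgroup.one_mem _, R.μ_one⟩
        mul_mem' := by
          rintro a b ⟨ha, ha'⟩ ⟨hb, hb'⟩
          exact ⟨Subgroup.mul_mem _ ha hb, by rw [R.μ_mul a ha b hb, ha', hb', one_mul]⟩
        inv_mem' := by
          rintro a ⟨ha, ha'⟩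
          exact ⟨Subgroup.inv_mem _ ha, by rw [R.μ_inv ha, ha', inv_one]⟩ }
    have hle := Pool.Agent.Helper11.Gap.commutator_le_of_conj hgen P (by
      intro k x hx
      have h1 := hcon k x hx
      rw [Hyp, not_not, SimRep.at'_μ] at h1
      refine ⟨?_, h1⟩
      have := (inferInstance : (commutator G).Normal).conj_mem x hx.mem k⁻¹
      rwa [inv_inv] at this)
    exact hvn (hle hn).2
  obtain ⟨h₀, x₀, hx₀, hh₀⟩ := hhyp
  -- somebody moves the center
  have hex : ∃ d : ℕ, ∃ h x y g : G, IsX T x ∧ IsX T y ∧ Hyp R h x ∧ g ∈ T ^ d ∧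
      (R.at' (g * h)).act y ((R.at' h).ctr x) ≠ (R.at' h).ctr x := by
    by_contra hcon
    push Not at hcon
    set o := (R.at' h₀).ctr x₀ with ho
    obtain ⟨n, hn, hmove⟩ := H2 o
    let P : Subgroup G :=
      { carrier := {n | n ∈ commutator G ∧ R.act n o = o}
        one_mem' := ⟨Subgroup.one_mem _, R.act_one o⟩
        mul_mem' := by
          rintro a b ⟨ha, ha'⟩ ⟨hb, hb'⟩
          exact ⟨Subgroup.mul_mem _ ha hb, R.fix_mul ha hb ha' hb'⟩
        inv_mem' := by
          rintro a ⟨ha, ha'⟩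
          exact ⟨Subgroup.inv_mem _ ha, R.fix_inv ha ha'⟩ }
    have hle := Pool.Agent.Helper11.Gap.commutator_le_of_conj hgen P (by
      intro k y hy
      obtain ⟨m, hm⟩ := hT.exists_mem_pow_of_mem_closure (g := k * h₀⁻¹)
        (by rw [hgen]; exact Subgroup.mem_top _)
      have h1 := hcon m h₀ x₀ y (k * h₀⁻¹) hx₀ hy hh₀ hm
      rw [inv_mul_cancel_right, SimRep.at'_act] at h1
      refine ⟨?_, h1⟩
      have := (inferInstance : (commutator G).Normal).conj_mem y hy.mem k⁻¹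
      rwa [inv_inv] at this)
    exact hmove (hle hn).2
  refine ⟨Nat.find hex, ?_, Nat.find_spec hex⟩
  intro h x y g m hx hy hh hg hm
  by_contra hne
  exact Nat.find_min hex hm ⟨h, x, y, g, hx, hy, hh, hg, hne⟩

theorem swap_step_one [DecidableEq G] {T : Finset G} (hT : Sym T)
    (R : SimRep (commutator G) E Γ₀) (d : ℕ)
    (hfix : FixProp T R d) (h x y : G) (hx : IsX T x) (hy : IsX T y) (hh : Hyp R h x)
    (a₂ : ℕ) (p : G) (q : G) (hq : q ∈ T ^ a₂) (a : G) (ha : a ∈ T) (b : G)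
    (hb : b ∈ T) (hlen : a₂ < d)
    (hQ : (R.at' (p * (a * b) * q * h)).act y ((R.at' h).ctr x) ≠ (R.at' h).ctr x) :
    (R.at' (p * (b * a) * q * h)).act y ((R.at' h).ctr x) ≠ (R.at' h).ctr x := by
  have hcX : IsX T ⁅b⁻¹, a⁻¹⁆ := ⟨_, hT.inv b hb, _, hT.inv a ha, rfl⟩
  have ecR : p * (b * a) * q * h =
      (p * (a * b) * q * h) * ((q * h)⁻¹ * ⁅b⁻¹, a⁻¹⁆ * (q * h)) := by
    rw [commutatorElement_def]; group
  have hκN : (q * h)⁻¹ * ⁅b⁻¹, a⁻¹⁆ * (q * h) ∈ commutator G :=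
    Pool.Agent.Helper11.Gap.conj_mem' hcX.mem _
  have hfixo := hfix h x _ q a₂ hx hcX hh hq hlen
  rw [SimRep.at'_act] at hfixo
  intro hcon
  rw [ecR, at'_mul_fix_iff R hκN hy.mem hfixo] at hcon
  exact hQ hcon

theorem conv_act (R : SimRep (commutator G) E Γ₀) (ℓ : ℕ → G) (h z : G) (i s : ℕ) (w : E) :
    (R.at' ((pth ℓ i)⁻¹ * h)).act ((pth ℓ s)⁻¹ * z * pth ℓ s) w =
      (R.at' (pth ℓ s * (pth ℓ i)⁻¹ * h)).act z w := by
  rw [SimRep.at'_conj_act, mul_assoc]

theorem conv_μ (R : SimRep (commutator G) E Γ₀) (ℓ : ℕ → G) (h z : G) (i s : ℕ) :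
    (R.at' ((pth ℓ i)⁻¹ * h)).μ ((pth ℓ s)⁻¹ * z * pth ℓ s) =
      (R.at' (pth ℓ s * (pth ℓ i)⁻¹ * h)).μ z := by
  rw [SimRep.at'_conj_μ, mul_assoc]

theorem ins_μ (R : SimRep (commutator G) E Γ₀) {ℓ : ℕ → G} {z : G}
    (hz : z ∈ commutator G) (s : ℕ) (f : ℕ → ℤ) (n : ℕ) :
    R.μ (ins ℓ s (fun t => z ^ f t) n) =
      ∏ t ∈ Finset.range n, R.μ ((pth ℓ (t + s))⁻¹ * z * pth ℓ (t + s)) ^ f t := by
  induction n with
  | zero => simp [ins, R.μ_one]
  | succ n ih =>
    rw [Pool.Agent.Helper11.Gap.ins_succ, Finset.prod_range_succ, ← ih]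
    have e : (pth ℓ (n + s))⁻¹ * z ^ f n * pth ℓ (n + s) =
        ((pth ℓ (n + s))⁻¹ * z * pth ℓ (n + s)) ^ f n := by
      have := conj_zpow (i := f n) (a := (pth ℓ (n + s))⁻¹) (b := z)
      rw [inv_inv] at this
      exact this.symm
    have hm := Pool.Agent.Helper11.Gap.conj_mem' hz (pth ℓ (n + s))
    rw [e, R.μ_mul _ (Subgroup.zpow_mem _ hm _) _
      (Pool.Agent.Helper11.Gap.ins_commutator_mem hz s f n), μ_zpow R hm, mul_comm]

theorem ins_fix (R : SimRep (commutator G) E Γ₀) {ℓ : ℕ → G} {z : G}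
    (hz : z ∈ commutator G) (s : ℕ) (f : ℕ → ℤ) (n : ℕ) (o : E)
    (h : ∀ t < n, R.act ((pth ℓ (t + s))⁻¹ * z * pth ℓ (t + s)) o = o) :
    R.act (ins ℓ s (fun t => z ^ f t) n) o = o := by
  induction n with
  | zero => exact R.act_one o
  | succ n ih =>
    rw [Pool.Agent.Helper11.Gap.ins_succ]
    have e : (pth ℓ (n + s))⁻¹ * z ^ f n * pth ℓ (n + s) =
        ((pth ℓ (n + s))⁻¹ * z * pth ℓ (n + s)) ^ f n := by
      have := conj_zpow (i := f n) (a := (pth ℓ (n + s))⁻¹) (b := z)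
      rw [inv_inv] at this
      exact this.symm
    have hm := Pool.Agent.Helper11.Gap.conj_mem' hz (pth ℓ (n + s))
    rw [e]
    exact R.fix_mul (Subgroup.zpow_mem _ hm _)
      (Pool.Agent.Helper11.Gap.ins_commutator_mem hz s f n)
      (fix_zpow R hm (h n (Nat.lt_succ_self n)) _) (ih (fun t ht => h t (by omega)))

/-- One family of exponents with constant sign on a large set of coordinates. -/
theorem pigeonhole_one {Γ : Type*} [LinearOrder Γ] (c : Γ) (D : ℕ)
    (a : (Fin D → Fin 81) → Fin D → Γ)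
    (hdep : ∀ i ε ε', (∀ t ≤ i, ε t = ε' t) → a ε i = a ε' i)
    (hinj : ∀ i ε ε', (∀ t < i, ε t = ε' t) → ε i ≠ ε' i → a ε i ≠ a ε' i) :
    ∃ (I : Finset (Fin D)) (s : Bool) (F : Finset (Fin D → Fin 81)),
      ((40 : ℚ) / 27) ^ D ≤ F.card ∧
      (∀ ε ∈ F, ∀ i ∈ I, sgn s c (a ε i)) ∧
      (∀ ε ∈ F, ∀ ε' ∈ F, ε ≠ ε' → ∃ i ∈ I, a ε i ≠ a ε' i) := by
  classical
  obtain ⟨σ, E₀, hE₀, hσ⟩ := Pool.Agent.Helper11.Gap.exists_pattern c D a (by
    convert Pool.Agent.Helper11.Gap.good_card 80 c D a hdep hinj)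
  obtain ⟨s, s', hss⟩ := Pool.Agent.Helper11.Gap.four_corners D σ σ
  set I := Finset.univ.filter (fun i => σ i = s ∧ σ i = s') with hI
  obtain ⟨F, hFsub, hFcard, hFI⟩ := Pool.Agent.Helper11.Gap.exists_restrict D I hss E₀ hE₀
  refine ⟨I, s, F, hFcard, ?_, ?_⟩
  · intro ε hε i hi
    have := hσ ε (hFsub hε) i
    rwa [(Finset.mem_filter.1 hi).2.1] at this
  · intro ε hε ε' hε' hne
    obtain ⟨i, h1, h2⟩ := Pool.Agent.Helper11.Gap.exists_diff a hinj ε ε' hne
    exact ⟨i, hFI ε hε ε' hε' i h1, h2⟩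

theorem main [DecidableEq G] {T : Finset G} (hT : Sym T) (R : SimRep (commutator G) E Γ₀)
    (d : ℕ) (hfix : FixProp T R d) (h x y : G) (hx : IsX T x) (hy : IsX T y)
    (hh : Hyp R h x) {ℓ : ℕ → G} (hℓ : ∀ t, ℓ t ∈ T)
    (hmove : ∀ i < max d 1, (R.at' (pth ℓ (i + d) * (pth ℓ i)⁻¹ * h)).act y ((R.at' h).ctr x) ≠
      (R.at' h).ctr x) : Big T := by
  classical
  set D := max d 1 with hD
  have hD1 : 1 ≤ D := le_max_right _ _
  have hdD : d ≤ D := le_max_left _ _
  have hD2 : 2 ≤ D → d = D := by intro h2; omega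
  set o := (R.at' h).ctr x with ho
  set Ri : ℕ → SimRep (commutator G) E Γ₀ := fun i => R.at' ((pth ℓ i)⁻¹ * h) with hRi
  set Y : ℕ → G := fun t => (pth ℓ (t + d))⁻¹ * y * pth ℓ (t + d) with hY
  have hYN : ∀ t, Y t ∈ commutator G := fun t => Pool.Agent.Helper11.Gap.conj_mem' hy.mem _
  have hxfixo : (R.at' h).act x o = o := (R.at' h).act_ctr hx.mem hh
  -- `X t` fixes `o`
  have hXfix : ∀ i < D, ∀ t < D, (Ri i).act ((pth ℓ (t + 0))⁻¹ * x * pth ℓ (t + 0)) o = o := by
    intro i hi t ht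
    rw [hRi, add_zero]
    simp only
    rw [conv_act]
    rcases eq_or_ne t i with rfl | hti
    · rw [mul_inv_cancel, one_mul]
      exact hxfixo
    · have hd : d = D := hD2 (by omega)
      exact hfix h x x _ (D - 1) hx hx hh
        (Pool.Agent.Helper11.Gap.pth_seg_mem' hT hℓ (by omega) (by omega)) (by omega)
  -- the digits of `b`
  obtain ⟨J, hJ⟩ := exists_digits D Ri o hYN (by
      intro i hi t ht
      have hd : d = D := hD2 (by omega)
      rw [hRi, hY]
      simp only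
      rw [conv_act]
      exact hfix h x y _ (D - 1) hx hy hh
        (Pool.Agent.Helper11.Gap.pth_seg_mem' hT hℓ (by omega) (by omega)) (by omega)) (by
      intro i hi
      rw [hRi, hY]
      simp only
      rw [conv_act]
      exact hmove i hi)
  set b := seg Y J 0 D with hb
  have hbN : b ∈ commutator G := Pool.Agent.Helper11.Gap.seg_mem hYN J 0 D
  have hblen : b ∈ T ^ (8 * D) := by
    rw [hb, hY, Pool.Agent.Helper11.Gap.seg_eq_ins]
    have := Pool.Agent.Helper11.Gap.ins_mem hT hℓ d (z := fun t => if t ∈ J then y else 1)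
      (m := 4) (by
      intro t
      split_ifs
      · exact hy.mem_pow hT
      · exact hT.one_mem_pow 4) D
    exact hT.mono (by omega) this
  -- weights
  set C : ℕ → ℕ → Γ₀ := fun i t => (R.at' (pth ℓ t * (pth ℓ i)⁻¹ * h)).μ x with hC
  have hC0 : ∀ i t, C i t ≠ 0 := fun i t => (R.at' _).μ_ne_zero hx.mem
  have hC1 : ∀ i < D, C i i ≠ 1 := by
    intro i _
    rw [hC]
    simp only
    rw [mul_inv_cancel, one_mul]
    exact hh
  have hCtri : ∀ i t, i < t → t < D → C i t = 1 := by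
    intro i t hit htD
    by_contra hcon
    have hd : d = D := hD2 (by omega)
    have hyp1 : Hyp R (pth ℓ t * (pth ℓ i)⁻¹ * h) x := hcon
    have h1 := hfix h x x (pth ℓ t * (pth ℓ i)⁻¹) (d - 1) hx hx hh
      (Pool.Agent.Helper11.Gap.pth_seg_mem' hT hℓ (by omega) (by omega)) (by omega)
    have h2 := (R.at' (pth ℓ t * (pth ℓ i)⁻¹ * h)).eq_ctr hx.mem hyp1 h1
    have h3 := hfix (pth ℓ t * (pth ℓ i)⁻¹ * h) x y (pth ℓ (i + d) * (pth ℓ t)⁻¹)
      (d - 1) hx hy hyp1
      (Pool.Agent.Helper11.Gap.pth_seg_mem' hT hℓ (by omega) (by omega)) (by omega)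
    have e1 : pth ℓ (i + d) * (pth ℓ t)⁻¹ * (pth ℓ t * (pth ℓ i)⁻¹ * h) =
        pth ℓ (i + d) * (pth ℓ i)⁻¹ * h := by group
    rw [e1, ← h2] at h3
    exact hmove i (by omega) h3
  obtain ⟨I, s, F, hcard, hF, hdis⟩ := pigeonhole_one (1 : Γ₀) D (fun ε i => wt C D ε i)
    (Pool.Agent.Helper11.Gap.wt_dep C D hCtri)
    (Pool.Agent.Helper11.Gap.wt_inj C D hC0 hC1 hCtri)
  set U : (Fin D → Fin 81) → G := fun ε => flip' s (ins ℓ 0 (fun t => x ^ ex ε t) D) with hU
  have hU0N : ∀ ε : Fin D → Fin 81, ins ℓ 0 (fun t => x ^ ex ε t) D ∈ commutator G :=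
    fun ε => Pool.Agent.Helper11.Gap.ins_commutator_mem hx.mem 0 _ D
  have hU0v : ∀ ε : Fin D → Fin 81, ∀ i : Fin D,
      (Ri i).μ (ins ℓ 0 (fun t => x ^ ex ε t) D) = wt C D ε i := by
    intro ε i
    rw [ins_μ (Ri i) hx.mem, wt]
    apply Finset.prod_congr rfl
    intro t _
    rw [hRi, hC, add_zero]
    simp only
    rw [conv_μ]
  have hU0fix : ∀ ε : Fin D → Fin 81, ∀ i : Fin D,
      (Ri i).act (ins ℓ 0 (fun t => x ^ ex ε t) D) o = o := fun ε i =>
    ins_fix (Ri i) hx.mem 0 _ D o (fun t ht => hXfix i i.isLt t ht)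
  have hUN : ∀ ε, U ε ∈ commutator G := by
    intro ε
    rw [hU]
    cases s
    · exact Subgroup.inv_mem _ (hU0N ε)
    · exact hU0N ε
  have hUlen : ∀ ε, U ε ∈ T ^ (162 * D) := by
    intro ε
    have h1 := Pool.Agent.Helper11.Gap.insU_mem hT hx hℓ 0 ε (162 * D) 40 le_rfl (by omega)
    rw [hU]
    cases s
    · exact hT.inv_mem_pow h1
    · exact h1
  have hUfix : ∀ ε, ∀ i : Fin D, (Ri i).act (U ε) o = o := by
    intro ε i
    rw [hU]
    cases s
    · exact (Ri i).fix_inv (hU0N ε) (hU0fix ε i)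
    · exact hU0fix ε i
  have hUv : ∀ ε ∈ F, ∀ i ∈ I, (Ri i).μ (U ε) < 1 := by
    intro ε hε i hi
    have h1 := hF ε hε i hi
    rw [hU]
    cases s
    · have h2 : 1 < wt C D ε i := by simpa [sgn] using h1
      change (Ri i).μ (ins ℓ 0 (fun t => x ^ ex ε t) D)⁻¹ < 1
      rw [(Ri i).μ_inv (hU0N ε), hU0v]
      exact inv_lt_one_of_one_lt₀ h2
    · have h2 : wt C D ε i < 1 := by simpa [sgn] using h1
      change (Ri i).μ (ins ℓ 0 (fun t => x ^ ex ε t) D) < 1
      rw [hU0v]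
      exact h2
  have hUne : ∀ ε ε', ∀ i : Fin D, wt C D ε i ≠ wt C D ε' i →
      (Ri i).μ (U ε) ≠ (Ri i).μ (U ε') := by
    intro ε ε' i hne
    rw [hU]
    cases s
    · change (Ri i).μ (ins ℓ 0 (fun t => x ^ ex ε t) D)⁻¹ ≠
        (Ri i).μ (ins ℓ 0 (fun t => x ^ ex ε' t) D)⁻¹
      rw [(Ri i).μ_inv (hU0N ε), (Ri i).μ_inv (hU0N ε'), hU0v, hU0v]
      exact fun hc => hne (inv_injective hc)
    · change (Ri i).μ (ins ℓ 0 (fun t => x ^ ex ε t) D) ≠
        (Ri i).μ (ins ℓ 0 (fun t => x ^ ex ε' t) D)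
      rw [hU0v, hU0v]
      exact hne
  -- the conjugates by `b`
  have hbUN : ∀ ε, b * U ε * b⁻¹ ∈ commutator G := fun ε =>
    Subgroup.mul_mem _ (Subgroup.mul_mem _ hbN (hUN ε)) (Subgroup.inv_mem _ hbN)
  have hbUμ : ∀ ε, ∀ i : Fin D, (Ri i).μ (b * U ε * b⁻¹) = (Ri i).μ (U ε) := by
    intro ε i
    rw [(Ri i).μ_mul _ (Subgroup.mul_mem _ hbN (hUN ε)) _ (Subgroup.inv_mem _ hbN),
      (Ri i).μ_mul _ hbN _ (hUN ε), mul_right_comm, (Ri i).μ_mul_inv hbN, one_mul]
  have hbUfix : ∀ ε, ∀ i : Fin D, (Ri i).act (b * U ε * b⁻¹) ((Ri i).act b o) =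
      (Ri i).act b o := by
    intro ε i
    rw [(Ri i).act_mul (Subgroup.mul_mem _ hbN (hUN ε)) (Subgroup.inv_mem _ hbN),
      (Ri i).act_inv_act hbN, (Ri i).act_mul hbN (hUN ε), hUfix]
  have hfree := caseTwo (N := commutator G) (I : Set (Fin D)) (fun i => Ri i) (fun _ => o)
    (fun i => (Ri i).act b o) (fun i _ hcon => hJ i i.isLt hcon.symm) U
    (fun ε => b * U ε * b⁻¹) hUN hbUN (F : Set (Fin D → Fin 81)) (F : Set (Fin D → Fin 81))
    (fun i hi ε hε => ⟨hUfix ε i, hUv ε hε i hi⟩)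
    (fun i hi ε hε => ⟨hbUfix ε i, by rw [hbUμ]; exact hUv ε hε i hi⟩)
    (by
      intro ε hε ε' hε' hne2
      obtain ⟨i, hi, hw⟩ := hdis ε hε ε' hε' hne2
      exact ⟨i, hi, hUne ε ε' i hw⟩)
    (by
      intro ε hε ε' hε' hne2
      obtain ⟨i, hi, hw⟩ := hdis ε hε ε' hε' hne2
      refine ⟨i, hi, ?_⟩
      rw [hbUμ, hbUμ]
      exact hUne ε ε' i hw)
  have hgrow := Pool.Agent.Helper11.Gap.card_pow_of_free (T := T)
    (fun p : (Fin D → Fin 81) × (Fin D → Fin 81) => U p.1 * (b * U p.2 * b⁻¹))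
    (F ×ˢ F) (340 * D) (by
      intro p _
      have h1 := Pool.Agent.Helper11.Gap.mul_mem_pow
        (Pool.Agent.Helper11.Gap.mul_mem_pow hblen (hUlen p.2)) (hT.inv_mem_pow hblen)
      have h2 := Pool.Agent.Helper11.Gap.mul_mem_pow (hUlen p.1) h1
      exact hT.mono (by omega) h2) (by
      intro L L' hL hL' hlen heq
      refine hfree L L' ?_ ?_ hlen heq
      · intro p hp
        have := hL p hp
        rwa [Finset.mem_product] at this
      · intro p hp
        have := hL' p hp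
        rwa [Finset.mem_product] at this)
  refine ⟨340 * D, (F ×ˢ F).card, by omega, hgrow, ?_⟩
  rw [Finset.card_product]
  have h8 : ((2 : ℚ)) ^ 9 ≤ (((40 : ℚ) / 27) * ((40 : ℚ) / 27)) ^ 8 := by norm_num
  have hq : ((2 : ℚ)) ^ (340 * D) ≤ ((F.card : ℚ) * F.card) ^ 328 := by
    calc ((2 : ℚ)) ^ (340 * D) ≤ (2 : ℚ) ^ (9 * (41 * D)) :=
          pow_le_pow_right₀ (by norm_num) (by omega)
      _ = ((2 : ℚ) ^ 9) ^ (41 * D) := by rw [pow_mul]
      _ ≤ ((((40 : ℚ) / 27) * ((40 : ℚ) / 27)) ^ 8) ^ (41 * D) :=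
          pow_le_pow_left₀ (by norm_num) h8 _
      _ = (((40 : ℚ) / 27) ^ D * ((40 : ℚ) / 27) ^ D) ^ 328 := by
          rw [← mul_pow, ← pow_mul, ← pow_mul]
          congr 1
          ring
      _ ≤ ((F.card : ℚ) * F.card) ^ 328 := by
          apply pow_le_pow_left₀ (by positivity)
          exact mul_le_mul hcard hcard (by positivity) (by positivity)
  exact_mod_cast hq

/-- **Growth from an action by similarities.** -/
theorem dynamics [DecidableEq G] {T : Finset G} (hT : Sym T)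
    (hgen : Subgroup.closure (T : Set G) = ⊤) (R : SimRep (commutator G) E Γ₀)
    (H1 : ∃ n ∈ commutator G, R.μ n ≠ 1)
    (H2 : ∀ z : E, ∃ n ∈ commutator G, R.act n z ≠ z) : Big T := by
  classical
  obtain ⟨d, hfix, h, x, y, g, hx, hy, hh, hg, hmove⟩ := exists_min T hT hgen R H1 H2
  obtain ⟨ℓ, hℓ, hper, hpth⟩ := Pool.Agent.Helper11.Gap.exists_pth hT d g hg
  have hmoveall : ∀ i < max d 1, (R.at' (pth ℓ (i + d) * (pth ℓ i)⁻¹ * h)).act y
      ((R.at' h).ctr x) ≠ (R.at' h).ctr x := by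
    intro i hi
    rcases Nat.eq_zero_or_pos d with hd0 | hd0
    · have hi0 : i = 0 := by omega
      subst hi0
      subst hd0
      have e : pth ℓ (0 + 0) * (pth ℓ 0)⁻¹ * h = g * h := by
        rw [← hpth]; simp [pth]
      rw [e]
      exact hmove
    · have hrot := Pool.Agent.Helper11.Gap.rotate_path hT
        (fun w => (R.at' (w * h)).act y ((R.at' h).ctr x) ≠ (R.at' h).ctr x) d hd0
        (by
          intro a₁ a₂ p _ q hq a ha b hb hlen
          constructor
          · exact swap_step_one hT R d hfix h x y hx hy hh a₂ p q hq a ha b hb (by omega)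
          · exact swap_step_one hT R d hfix h x y hx hy hh a₂ p q hq b hb a ha (by omega))
        hℓ hper i
      rw [hpth] at hrot
      exact hrot.2 hmove
  exact main hT R d hfix h x y hx hy hh hℓ hmoveall

end dist

end Pool.Agent.Helper90.RO
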